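import Mathlib
import Pool.Agent.W691.Ran.Defs
import Pool.Agent.Helper150.Iid.NormF2

set_option autoImplicit false

namespace Pool.Agent.W12.RN

open MeasureTheory Pool.Agent.Helper150.Iid Pool.Agent.W691.Ran

noncomputable section

theorem wt_nonneg' (k : ℝ) (h : Fin 2 → ℤ) : 0 ≤ wt k h :=
  Finset.prod_nonneg fun j _ => Real.rpow_nonneg (by positivity) _

theorem fc_sum {ι : Type} (s : Finset ι) (f : ι → Tor 2 → ℝ) (hf : ∀ i ∈ s, Continuous (f i))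
    (h : Fin 2 → ℤ) : fc (fun x => ∑ i ∈ s, f i x) h = ∑ i ∈ s, fc (f i) h := by
  unfold fc
  rw [← integral_finsetSum]
  · refine integral_congr_ae (Filter.Eventually.of_forall fun x => ?_)
    simp only
    push_cast
    rw [Finset.mul_sum]
  · intro i hi
    apply integrable_tor
    refine Continuous.mul ?_ (Complex.continuous_ofReal.comp (hf i hi))
    refine continuous_finsetProd _ fun j _ => ?_
    exact (fourier (-h j)).continuous.comp (continuous_apply j)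

/-- sums -/
theorem nb_sum (k : ℝ) {ι : Type} (s : Finset ι) (f : ι → Tor 2 → ℝ) (E : ι → ℝ)
    (hf : ∀ i ∈ s, NB k (f i) (E i)) :
    NB k (fun x => ∑ i ∈ s, f i x) (s.card * ∑ i ∈ s, E i) := by
  have hc : Continuous (fun x => ∑ i ∈ s, f i x) := continuous_finsetSum s fun i hi => (hf i hi).1
  have hle : ∀ h, ‖fc (fun x => ∑ i ∈ s, f i x) h‖ ^ 2 * wt k h ≤
      (s.card : ℝ) * ∑ i ∈ s, ‖fc (f i) h‖ ^ 2 * wt k h := by
    intro h
    rw [fc_sum s f (fun i hi => (hf i hi).1)]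
    have h1 : ‖∑ i ∈ s, fc (f i) h‖ ^ 2 ≤ s.card * ∑ i ∈ s, ‖fc (f i) h‖ ^ 2 :=
      (pow_le_pow_left₀ (norm_nonneg _) (norm_sum_le _ _) 2).trans sq_sum_le_card_mul_sum_sq
    have h2 := mul_le_mul_of_nonneg_right h1 (wt_nonneg' k h)
    rwa [mul_assoc, Finset.sum_mul] at h2
  have hsumv : Summable fun h => ∑ i ∈ s, ‖fc (f i) h‖ ^ 2 * wt k h :=
    summable_sum fun i hi => (hf i hi).2.1
  have hdom := hsumv.mul_left (s.card : ℝ)
  have hsum : Summable fun h => ‖fc (fun x => ∑ i ∈ s, f i x) h‖ ^ 2 * wt k h :=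
    Summable.of_nonneg_of_le (fun h => mul_nonneg (by positivity) (wt_nonneg' k h)) hle hdom
  refine ⟨hc, hsum, ?_⟩
  refine (hsum.tsum_le_tsum hle hdom).trans ?_
  rw [tsum_mul_left, Summable.tsum_finsetSum (fun i hi => (hf i hi).2.1)]
  exact mul_le_mul_of_nonneg_left (Finset.sum_le_sum fun i hi => (hf i hi).2.2) (by positivity)

/-- distance of two grid points of the same class -/
theorem grid_dist (l a a' : ℕ) (ha : a < 2 ^ (l + 3)) (ha' : a' < 2 ^ (l + 3))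
    (hm : a % 8 = a' % 8) (hne : a ≠ a') :
    (1 : ℝ) / 2 ^ l ≤ ‖((((a : ℝ) / 2 ^ (l + 3) : ℝ)) : UnitAddCircle) -
      ((((a' : ℝ) / 2 ^ (l + 3) : ℝ)) : UnitAddCircle)‖ := by
  have h0 : ((((a : ℝ) / 2 ^ (l + 3) : ℝ)) : UnitAddCircle) -
      ((((a' : ℝ) / 2 ^ (l + 3) : ℝ)) : UnitAddCircle) =
      ((((a : ℝ) / 2 ^ (l + 3) - (a' : ℝ) / 2 ^ (l + 3) : ℝ)) : UnitAddCircle) :=
    (AddCircle.coe_sub (1 : ℝ) _ _).symm
  rw [h0, UnitAddCircle.norm_eq]
  obtain ⟨m, hm'⟩ : (8 : ℤ) ∣ (a : ℤ) - a' := by omega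
  have h1 : (a : ℝ) / 2 ^ (l + 3) - (a' : ℝ) / 2 ^ (l + 3) = (m : ℝ) / 2 ^ l := by
    have : (a : ℝ) - a' = 8 * m := by exact_mod_cast hm'
    rw [← sub_div, this, pow_add]
    field_simp
    ring
  rw [h1]
  set q := round ((m : ℝ) / 2 ^ l)
  have h2 : (m : ℝ) / 2 ^ l - q = ((m - 2 ^ l * q : ℤ) : ℝ) / 2 ^ l := by
    push_cast
    field_simp
  rw [h2, abs_div, abs_of_pos (by positivity : (0:ℝ) < 2 ^ l)]
  refine div_le_div_of_nonneg_right ?_ (by positivity)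
  have h3 : m - 2 ^ l * q ≠ 0 := by
    intro h
    have h4 : m = 2 ^ l * q := by omega
    have h5 : (2 : ℤ) ^ (l + 3) = 8 * 2 ^ l := by ring
    have h6 : (a : ℤ) < 8 * 2 ^ l := by rw [← h5]; exact_mod_cast ha
    have h7 : (a' : ℤ) < 8 * 2 ^ l := by rw [← h5]; exact_mod_cast ha'
    have h8 : q ≠ 0 := by
      rintro h9
      rw [h9, mul_zero] at h4
      rw [h4] at hm'
      omega
    have h10 : (0 : ℤ) < 2 ^ l := by positivity
    rcases lt_or_gt_of_ne h8 with h9 | h9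
    · have : (2 : ℤ) ^ l * q ≤ 2 ^ l * (-1) := mul_le_mul_of_nonneg_left (by omega) h10.le
      omega
    · have : (2 : ℤ) ^ l * 1 ≤ 2 ^ l * q := mul_le_mul_of_nonneg_left (by omega) h10.le
      omega
  have h4 : (1 : ℤ) ≤ |m - 2 ^ l * q| := Int.one_le_abs h3
  exact_mod_cast h4

theorem grid : S_GRID := by
  intro k hk
  obtain ⟨C, hC0, hC⟩ := NF2.f2_norm nice_bb (blkNorm_of_nice nice_bb nice_bb) k hk
  refine ⟨64 * C, by positivity, fun Λ r => ?_⟩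
  classical
  set T : Finset (Σ _ : ℕ, ℕ × ℕ) := (Finset.range (Λ + 1)).sigma
    (fun l => Finset.range (2 ^ (l + 3)) ×ˢ Finset.range (2 ^ (Λ - l + 3))) with hT
  have hsumT : ∀ g : ℕ → ℕ → ℕ → ℝ, ∑ l ∈ Finset.range (Λ + 1), ∑ a ∈ Finset.range (2 ^ (l + 3)),
      ∑ b ∈ Finset.range (2 ^ (Λ - l + 3)), g l a b = ∑ t ∈ T, g t.1 t.2.1 t.2.2 := by
    intro g
    rw [hT, Finset.sum_sigma]
    refine Finset.sum_congr rfl fun l _ => ?_
    rw [Finset.sum_product]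
  have hmem : ∀ t ∈ T, t.1 ≤ Λ ∧ t.2.1 < 2 ^ (t.1 + 3) ∧ t.2.2 < 2 ^ (Λ - t.1 + 3) := by
    intro t ht
    rw [hT, Finset.mem_sigma, Finset.mem_product, Finset.mem_range, Finset.mem_range,
      Finset.mem_range] at ht
    exact ⟨by omega, ht.2.1, ht.2.2⟩
  set cls : Finset (ℕ × ℕ) := Finset.range 8 ×ˢ Finset.range 8 with hcls
  set κ : (Σ _ : ℕ, ℕ × ℕ) → ℕ × ℕ := fun t => (t.2.1 % 8, t.2.2 % 8) with hκ
  have hmaps : ∀ t ∈ T, κ t ∈ cls := by
    intro t _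
    rw [hcls, Finset.mem_product, Finset.mem_range, Finset.mem_range]
    exact ⟨Nat.mod_lt _ (by norm_num), Nat.mod_lt _ (by norm_num)⟩
  set P : ℝ := C * ((Λ : ℝ) + 1) * ((2 : ℝ) ^ Λ) ^ (2 * k) / (2 : ℝ) ^ Λ with hP
  -- one class
  have hone : ∀ c ∈ cls, NB k (fun x => ∑ t ∈ T.filter (fun t => κ t = c),
      r t.1 t.2.1 t.2.2 * gb Λ t.1 t.2.1 t.2.2 x)
      (P * ∑ t ∈ T.filter (fun t => κ t = c), r t.1 t.2.1 t.2.2 ^ 2) := by
    intro c _
    set S := T.filter (fun t => κ t = c) with hS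
    let e := S.equivFin
    set lam : Fin S.card → ℕ := fun i => (e.symm i).1.1 with hlam
    set xc : Fin S.card → ℝ := fun i => ((e.symm i).1.2.1 : ℝ) / 2 ^ ((e.symm i).1.1 + 3) with hxc
    set yc : Fin S.card → ℝ := fun i => ((e.symm i).1.2.2 : ℝ) / 2 ^ (Λ - (e.symm i).1.1 + 3)
      with hyc
    set rr : Fin S.card → ℝ := fun i => r (e.symm i).1.1 (e.symm i).1.2.1 (e.symm i).1.2.2 with hrr
    have hf2 : (fun x => ∑ t ∈ S, r t.1 t.2.1 t.2.2 * gb Λ t.1 t.2.1 t.2.2 x) =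
        f2 S.card Λ lam xc yc rr := by
      funext x
      unfold f2
      rw [← Finset.sum_coe_sort S (fun t => r t.1 t.2.1 t.2.2 * gb Λ t.1 t.2.1 t.2.2 x),
        ← e.symm.sum_comp]
      refine Finset.sum_congr rfl fun i _ => ?_
      unfold gb
      ring
    have hr2 : ∑ t ∈ S, r t.1 t.2.1 t.2.2 ^ 2 = ∑ i, rr i ^ 2 := by
      rw [← Finset.sum_coe_sort S (fun t => r t.1 t.2.1 t.2.2 ^ 2), ← e.symm.sum_comp]
    rw [hf2, hr2]
    have hmemS : ∀ i, (e.symm i).1 ∈ T ∧ κ (e.symm i).1 = c := fun i =>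
      Finset.mem_filter.1 (e.symm i).2
    refine ⟨NF2.f2_continuous nice_bb _ _ _ _ _ _, hC _ Λ lam xc yc rr
      (fun i => (hmem _ (hmemS i).1).1) ?_⟩
    intro i j hij hl
    have hi := hmemS i
    have hj := hmemS j
    have hi' := hmem _ hi.1
    have hj' := hmem _ hj.1
    have hne : (e.symm i).1 ≠ (e.symm j).1 := by
      intro h
      exact hij (e.symm.injective (Subtype.ext h))
    have hk1 : (e.symm i).1.2.1 % 8 = (e.symm j).1.2.1 % 8 := by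
      have := hi.2.trans hj.2.symm
      exact (Prod.ext_iff.1 this).1
    have hk2 : (e.symm i).1.2.2 % 8 = (e.symm j).1.2.2 % 8 := by
      have := hi.2.trans hj.2.symm
      exact (Prod.ext_iff.1 this).2
    have hl' : (e.symm j).1.1 = (e.symm i).1.1 := hl.symm
    rintro ⟨h1, h2⟩
    simp only [hxc, hyc, hlam] at h1 h2
    rw [hl'] at h1 h2
    by_cases ha : (e.symm i).1.2.1 = (e.symm j).1.2.1
    · by_cases hb : (e.symm i).1.2.2 = (e.symm j).1.2.2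
      · apply hne
        refine Sigma.ext hl ?_
        exact heq_of_eq (Prod.ext ha hb)
      · rw [hl'] at hj'
        exact absurd h2 (not_lt.2 (grid_dist _ _ _ hi'.2.2 hj'.2.2 hk2 hb))
    · rw [hl'] at hj'
      exact absurd h1 (not_lt.2 (grid_dist _ _ _ hi'.2.1 hj'.2.1 hk1 ha))
  have hall := nb_sum k cls _ _ hone
  have e1 : (fun x => ∑ c ∈ cls, ∑ t ∈ T.filter (fun t => κ t = c),
      r t.1 t.2.1 t.2.2 * gb Λ t.1 t.2.1 t.2.2 x) =
      (fun x => ∑ l ∈ Finset.range (Λ + 1), ∑ a ∈ Finset.range (2 ^ (l + 3)),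
      ∑ b ∈ Finset.range (2 ^ (Λ - l + 3)), r l a b * gb Λ l a b x) := by
    funext x
    rw [Finset.sum_fiberwise_of_maps_to hmaps, hsumT (fun l a b => r l a b * gb Λ l a b x)]
  have e2 : (cls.card : ℝ) * ∑ c ∈ cls, P * ∑ t ∈ T.filter (fun t => κ t = c),
      r t.1 t.2.1 t.2.2 ^ 2 = 64 * C * ((Λ : ℝ) + 1) * ((2 : ℝ) ^ Λ) ^ (2 * k) / (2 : ℝ) ^ Λ *
      ∑ l ∈ Finset.range (Λ + 1), ∑ a ∈ Finset.range (2 ^ (l + 3)),
        ∑ b ∈ Finset.range (2 ^ (Λ - l + 3)), r l a b ^ 2 := by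
    rw [← Finset.mul_sum, Finset.sum_fiberwise_of_maps_to hmaps, hsumT (fun l a b => r l a b ^ 2),
      hcls, Finset.card_product, Finset.card_range, hP]
    push_cast
    ring
  rw [e1, e2] at hall
  exact hall

end

end Pool.Agent.W12.RN
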