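import Mathlib
import Pool.Agent.W691.Ran.Defs

set_option autoImplicit false

namespace Pool.Agent.W12.RN

open Pool.Agent.W691.Ran

noncomputable section

/-- one factor -/
def Ef (h : ℤ) (p : ℕ) (b : Bool) : ℂ :=
  Complex.exp (((2 * Real.pi * h * (if b then (1:ℝ) else 0) / 2 ^ (p + 1) : ℝ) : ℂ) * Complex.I)

def Efc (h : ℤ) (p : ℕ) (b : Bool) : ℂ :=
  Complex.exp (-(((2 * Real.pi * h * (if b then (1:ℝ) else 0) / 2 ^ (p + 1) : ℝ) : ℂ) * Complex.I))

def Gn {M : ℕ} (h : ℤ) (v v' : Fin M → Bool) (nu : Fin M × (Fin M → Bool)) (c : Bool) : ℂ :=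
  (if nu.2 = tr nu.1 v then Ef h nu.1 (xor (v nu.1) c) else 1) *
    (if nu.2 = tr nu.1 v' then Efc h nu.1 (xor (v' nu.1) c) else 1)

lemma exp_eq {M : ℕ} (h : ℤ) (v v' : Fin M → Bool) (s : Coin M) :
    Complex.exp (2 * Real.pi * Complex.I * h * (X s v - X s v' : ℝ)) =
      ∏ nu : Fin M × (Fin M → Bool), Gn h v v' nu (s nu) := by
  have h1 : ∏ nu : Fin M × (Fin M → Bool), Gn h v v' nu (s nu) =
      ∏ p : Fin M, Ef h p (xor (v p) (s (p, tr p v))) * Efc h p (xor (v' p) (s (p, tr p v'))) := by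
    rw [Fintype.prod_prod_type]
    refine Finset.prod_congr rfl fun p _ => ?_
    unfold Gn
    rw [Finset.prod_mul_distrib]
    congr 1
    · rw [Finset.prod_ite_eq' Finset.univ (tr p v) (fun w => Ef h p (xor (v p) (s (p, w))))]
      simp
    · rw [Finset.prod_ite_eq' Finset.univ (tr p v') (fun w => Efc h p (xor (v' p) (s (p, w))))]
      simp
  rw [h1]
  unfold Ef Efc
  simp_rw [← Complex.exp_add]
  rw [← Complex.exp_sum]
  congr 1
  unfold X
  rw [← Finset.sum_sub_distrib]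
  push_cast
  rw [Finset.mul_sum]
  refine Finset.sum_congr rfl fun p _ => ?_
  ring

lemma tr_eq {M : ℕ} {v v' : Fin M → Bool} {a p : Fin M} (hv : ∀ q < a, v q = v' q)
    (hp : p ≤ a) : tr p v = tr p v' := by
  funext q
  unfold tr
  by_cases hq : q < p
  · simp only [hq, if_true]
    exact hv q (lt_of_lt_of_le hq hp)
  · simp [hq]

lemma tr_ne {M : ℕ} {v v' : Fin M → Bool} {a p : Fin M} (hv : v a ≠ v' a)
    (hp : a < p) : tr p v ≠ tr p v' := by
  intro h
  have := congrFun h a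
  unfold tr at this
  simp only [hp, if_true] at this
  exact hv this

lemma Ef_false (h : ℤ) (p : ℕ) : Ef h p false = 1 := by simp [Ef]
lemma Efc_false (h : ℤ) (p : ℕ) : Efc h p false = 1 := by simp [Efc]
lemma Ef_true (h : ℤ) (p : ℕ) : Ef h p true =
    Complex.exp (((2 * Real.pi * h / 2 ^ (p + 1) : ℝ) : ℂ) * Complex.I) := by simp [Ef]
lemma Efc_true (h : ℤ) (p : ℕ) : Efc h p true =
    Complex.exp (-(((2 * Real.pi * h / 2 ^ (p + 1) : ℝ) : ℂ) * Complex.I)) := by simp [Efc]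

lemma Ef_mul_Efc (h : ℤ) (p : ℕ) (b : Bool) : Ef h p b * Efc h p b = 1 := by
  unfold Ef Efc
  rw [← Complex.exp_add]
  simp

/-- the average at a node -/
def mn {M : ℕ} (h : ℤ) (v v' : Fin M → Bool) (nu : Fin M × (Fin M → Bool)) : ℂ :=
  (Gn h v v' nu true + Gn h v v' nu false) / 2

lemma prod_lt {M : ℕ} (h : ℤ) (v v' : Fin M → Bool) (a p : Fin M)
    (hv : ∀ q < a, v q = v' q) (hp : p < a) : ∏ w, mn h v v' (p, w) = 1 := by
  refine Finset.prod_eq_one fun w _ => ?_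
  unfold mn Gn
  simp only
  rw [tr_eq hv hp.le, hv p hp]
  by_cases hw : w = tr p v'
  · simp only [hw, if_true, Ef_mul_Efc]
    norm_num
  · simp [hw]

lemma two_cos (x : ℝ) : (Complex.exp ((x : ℂ) * Complex.I) + Complex.exp (-((x : ℂ) * Complex.I))) / 2
    = ((Real.cos x : ℝ) : ℂ) := by
  rw [Complex.ofReal_cos, Complex.cos]
  ring_nf

lemma prod_at {M : ℕ} (h : ℤ) (v v' : Fin M → Bool) (a : Fin M)
    (hv : ∀ q < a, v q = v' q) (hva : v a ≠ v' a) :
    ∏ w, mn h v v' (a, w) = ((Real.cos (2 * Real.pi * h / 2 ^ ((a:ℕ) + 1)) : ℝ) : ℂ) := by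
  rw [Finset.prod_eq_single (tr a v')]
  · unfold mn Gn
    simp only
    rw [tr_eq hv le_rfl]
    simp only [if_true]
    rw [← two_cos]
    have hb : v a = !(v' a) := by
      cases h1 : v a <;> cases h2 : v' a <;> simp_all
    rw [hb]
    cases h2 : v' a
    · simp [Ef_false, Efc_false, Ef_true, Efc_true]
      ring
    · simp [Ef_false, Efc_false, Ef_true, Efc_true]
  · intro w _ hw
    unfold mn Gn
    simp only
    rw [tr_eq hv le_rfl]
    simp [hw]
  · intro h1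
    exact absurd (Finset.mem_univ _) h1

lemma prod_gt {M : ℕ} (h : ℤ) (v v' : Fin M → Bool) (a p : Fin M)
    (hva : v a ≠ v' a) (hp : a < p) :
    ∏ w, mn h v v' (p, w) = ((Real.cos (Real.pi * h / 2 ^ ((p:ℕ) + 1)) ^ 2 : ℝ) : ℂ) := by
  have hne := tr_ne hva hp
  have h1 : ∀ w, mn h v v' (p, w) =
      (if w = tr p v then (1 + Ef h p true) / 2 else 1) *
      (if w = tr p v' then (1 + Efc h p true) / 2 else 1) := by
    intro w
    unfold mn Gn
    simp only
    by_cases hw : w = tr p v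
    · have hw' : w ≠ tr p v' := by rw [hw]; exact hne
      simp only [if_pos hw, if_neg hw']
      cases h2 : v p <;> simp [Ef_false] <;> ring
    · simp only [if_neg hw]
      by_cases hw' : w = tr p v'
      · simp only [if_pos hw']
        cases h2 : v' p <;> simp [Efc_false] <;> ring
      · simp only [if_neg hw']
        norm_num
  simp_rw [h1]
  rw [Finset.prod_mul_distrib, Finset.prod_ite_eq', Finset.prod_ite_eq']
  simp only [Finset.mem_univ, if_true]
  rw [Ef_true, Efc_true]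
  have h2 : ((Real.cos (Real.pi * h / 2 ^ ((p:ℕ) + 1)) ^ 2 : ℝ) : ℂ) =
      (1 + ((Real.cos (2 * Real.pi * h / 2 ^ ((p:ℕ) + 1)) : ℝ) : ℂ)) / 2 := by
    have := Real.cos_sq (Real.pi * h / 2 ^ ((p:ℕ) + 1))
    rw [this]
    push_cast
    rw [show (2:ℂ) * (Real.pi * h / 2 ^ ((p:ℕ) + 1)) = 2 * Real.pi * h / 2 ^ ((p:ℕ) + 1) by ring]
    ring
  rw [h2, ← two_cos]
  set z : ℂ := ((2 * Real.pi * h / 2 ^ ((p:ℕ) + 1) : ℝ) : ℂ) * Complex.I
  have h3 : Complex.exp z * Complex.exp (-z) = 1 := by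
    rw [← Complex.exp_add]; simp
  linear_combination (1/4 : ℂ) * h3

theorem pair : S_PAIR := by
  intro M h v v' a hv hva
  simp_rw [exp_eq]
  have h1 : ∑ s : Coin M, ∏ nu : Fin M × (Fin M → Bool), Gn h v v' nu (s nu) =
      ∏ nu : Fin M × (Fin M → Bool), ∑ c : Bool, Gn h v v' nu c := by
    rw [Finset.prod_univ_sum, Fintype.piFinset_univ]
  rw [h1]
  have h2 : ∏ nu : Fin M × (Fin M → Bool), ∑ c : Bool, Gn h v v' nu c =
      (Fintype.card (Coin M) : ℂ) * ∏ nu : Fin M × (Fin M → Bool), mn h v v' nu := by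
    have : (Fintype.card (Coin M) : ℂ) = ∏ nu : Fin M × (Fin M → Bool), 2 := by
      rw [Finset.prod_const, Finset.card_univ, Fintype.card_fun, Fintype.card_bool]
      push_cast
      rfl
    rw [this, ← Finset.prod_mul_distrib]
    refine Finset.prod_congr rfl fun nu _ => ?_
    rw [Fintype.sum_bool]
    unfold mn
    ring
  rw [h2, Fintype.prod_prod_type]
  push_cast
  congr 1
  have h3 : ∀ p : Fin M, ∏ w, mn h v v' (p, w) =
      (((if (p:ℕ) < (a:ℕ) then (1:ℝ) else if (p:ℕ) = a then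
        Real.cos (2 * Real.pi * h / 2 ^ ((a:ℕ) + 1)) else
        Real.cos (Real.pi * h / 2 ^ ((p:ℕ) + 1)) ^ 2) : ℝ) : ℂ) := by
    intro p
    rcases lt_trichotomy p a with hp | hp | hp
    · rw [prod_lt h v v' a p hv hp, if_pos (by exact hp)]
      simp
    · rw [hp, prod_at h v v' a hv hva, if_neg (lt_irrefl _), if_pos rfl]
    · rw [prod_gt h v v' a p hva hp, if_neg (by have : (a:ℕ) < p := hp; omega),
        if_neg (by have : (a:ℕ) < p := hp; omega)]
  simp_rw [h3]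
  rw [← Complex.ofReal_prod]
  rw [show (2 : ℂ) * (Sc M h a : ℂ) - (Sc M h (a + 1) : ℂ) =
    ((2 * Sc M h a - Sc M h (a+1) : ℝ) : ℂ) by push_cast; rfl]
  congr 1
  rw [Fin.prod_univ_eq_prod_range (fun p : ℕ => (if p < (a:ℕ) then (1:ℝ) else if p = a then
        Real.cos (2 * Real.pi * h / 2 ^ ((a:ℕ) + 1)) else
        Real.cos (Real.pi * h / 2 ^ (p + 1)) ^ 2)) M]
  have ha := a.2
  have hS : Sc M h a = Real.cos (Real.pi * h / 2 ^ ((a:ℕ) + 1)) ^ 2 * Sc M h (a + 1) := by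
    unfold Sc
    rw [Finset.prod_eq_prod_Ico_succ_bot ha]
  rw [hS]
  have hsplit : Finset.range M = Finset.range (a:ℕ) ∪ Finset.Ico (a:ℕ) M := by
    ext x; simp; omega
  have hd : Disjoint (Finset.range (a:ℕ)) (Finset.Ico (a:ℕ) M) := by
    rw [Finset.disjoint_left]; intro x hx hy; simp at hx hy; omega
  rw [hsplit, Finset.prod_union hd, Finset.prod_eq_one, one_mul,
    Finset.prod_eq_prod_Ico_succ_bot ha, if_neg (lt_irrefl _), if_pos rfl]
  · have hr : ∏ k ∈ Finset.Ico ((a:ℕ) + 1) M, (if k < (a:ℕ) then (1:ℝ) else if k = a then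
        Real.cos (2 * Real.pi * h / 2 ^ ((a:ℕ) + 1)) else
        Real.cos (Real.pi * h / 2 ^ (k + 1)) ^ 2) = Sc M h (a + 1) := by
      unfold Sc
      refine Finset.prod_congr rfl fun k hk => ?_
      rw [Finset.mem_Ico] at hk
      rw [if_neg (by omega), if_neg (by omega)]
    rw [hr]
    have := Real.cos_two_mul (Real.pi * h / 2 ^ ((a:ℕ) + 1))
    rw [show 2 * (Real.pi * h / 2 ^ ((a:ℕ) + 1)) = 2 * Real.pi * h / 2 ^ ((a:ℕ) + 1) by ring] at this
    rw [this]
    ring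
  · intro k hk
    rw [Finset.mem_range] at hk
    rw [if_pos hk]

end

end Pool.Agent.W12.RN
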