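import Mathlib
import Pool.Agent.W691.Ran.Defs

set_option autoImplicit false

namespace Pool.Agent.W12.RN.UB

open MeasureTheory Pool.Agent.Helper150.Iid Pool.Agent.W691.Ran

noncomputable section

lemma Sc_nonneg (M : ℕ) (h : ℤ) (a : ℕ) : 0 ≤ Sc M h a :=
  Finset.prod_nonneg fun _ _ => sq_nonneg _

lemma Sc_le_one (M : ℕ) (h : ℤ) (a : ℕ) : Sc M h a ≤ 1 :=
  Finset.prod_le_one (fun _ _ => sq_nonneg _) (fun _ _ => Real.cos_sq_le_one _)

lemma Sc_succ {M : ℕ} (h : ℤ) {a : ℕ} (ha : a < M) :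
    Sc M h a = Real.cos (Real.pi * h / 2 ^ (a + 1)) ^ 2 * Sc M h (a + 1) := by
  unfold Sc
  rw [Finset.prod_eq_prod_Ico_succ_bot ha]

lemma Sc_step (M : ℕ) (h : ℤ) (a : ℕ) : Sc M h a ≤ Sc M h (a + 1) := by
  by_cases ha : a < M
  · rw [Sc_succ h ha]
    exact mul_le_of_le_one_left (Sc_nonneg _ _ _) (Real.cos_sq_le_one _)
  · have h1 : Sc M h a = 1 := by
      unfold Sc
      rw [Finset.Ico_eq_empty (by omega), Finset.prod_empty]
    have h2 : Sc M h (a + 1) = 1 := by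
      unfold Sc
      rw [Finset.Ico_eq_empty (by omega), Finset.prod_empty]
    rw [h1, h2]

/-- truncated -/
def Sp (M m : ℕ) (h : ℤ) (a : ℕ) : ℝ := if a ≤ m then Sc M h a else 1

lemma Sp_nonneg (M m : ℕ) (h : ℤ) (a : ℕ) : 0 ≤ Sp M m h a := by
  unfold Sp; split_ifs
  · exact Sc_nonneg _ _ _
  · exact zero_le_one

lemma Sp_le_one (M m : ℕ) (h : ℤ) (a : ℕ) : Sp M m h a ≤ 1 := by
  unfold Sp; split_ifs
  · exact Sc_le_one _ _ _
  · exact le_rfl

lemma Sp_step (M m : ℕ) (h : ℤ) (a : ℕ) : Sp M m h a ≤ Sp M m h (a + 1) := by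
  by_cases h1 : a + 1 ≤ m
  · unfold Sp
    rw [if_pos h1, if_pos (by omega)]
    exact Sc_step _ _ _
  · have : Sp M m h (a + 1) = 1 := by
      unfold Sp; rw [if_neg h1]
    rw [this]
    exact Sp_le_one _ _ _ _

/-- increments -/
def dd (M m : ℕ) (h : ℤ) : ℕ → ℝ
  | 0 => Sp M m h 0
  | a + 1 => Sp M m h (a + 1) - Sp M m h a

lemma dd_sum (M m : ℕ) (h : ℤ) (n : ℕ) : ∑ a ∈ Finset.range (n + 1), dd M m h a = Sp M m h n := by
  induction n with
  | zero => simp [dd]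
  | succ n ih => rw [Finset.sum_range_succ, ih]; simp [dd]

lemma dd_nonneg (M m : ℕ) (h : ℤ) (a : ℕ) : 0 ≤ dd M m h a := by
  cases a with
  | zero => exact Sp_nonneg _ _ _ _
  | succ a => exact sub_nonneg.2 (Sp_step _ _ _ _)

lemma dd_le_one (M m : ℕ) (h : ℤ) (a : ℕ) : dd M m h a ≤ 1 := by
  cases a with
  | zero => exact Sp_le_one _ _ _ _
  | succ a =>
    have h1 := Sp_le_one M m h (a + 1)
    have h2 := Sp_nonneg M m h a
    simp only [dd]
    linarith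

lemma pi_sq_lt : Real.pi ^ 2 < 10 := by
  have h1 := Real.pi_lt_d2
  have h2 := Real.pi_pos
  nlinarith

lemma one_sub_cos_sq (h : ℤ) (a : ℕ) :
    1 - Real.cos (Real.pi * h / 2 ^ a) ^ 2 ≤ Real.pi ^ 2 * h ^ 2 / 4 ^ a := by
  have h1 : 1 - Real.cos (Real.pi * h / 2 ^ a) ^ 2 = Real.sin (Real.pi * h / 2 ^ a) ^ 2 := by
    have := Real.sin_sq_add_cos_sq (Real.pi * h / 2 ^ a)
    linarith
  have h2 : Real.sin (Real.pi * h / 2 ^ a) ^ 2 ≤ (Real.pi * h / 2 ^ a) ^ 2 := by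
    rw [sq_le_sq]
    exact Real.abs_sin_le_abs
  rw [h1]
  refine h2.trans (le_of_eq ?_)
  rw [div_pow, mul_pow, ← pow_mul, mul_comm a 2, pow_mul]
  norm_num

lemma one_sub_Sc (h : ℤ) (m n : ℕ) :
    1 - Sc (m + n) h m ≤ Real.pi ^ 2 * h ^ 2 / 3 * (1 / 4 ^ m - 1 / 4 ^ (m + n)) := by
  induction n with
  | zero => simp [Sc]
  | succ n ih =>
    have h1 : Sc (m + (n + 1)) h m = Sc (m + n) h m *
        Real.cos (Real.pi * h / 2 ^ (m + n + 1)) ^ 2 := by
      unfold Sc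
      rw [← add_assoc, Finset.prod_Ico_succ_top (by omega)]
    have h2 := one_sub_cos_sq h (m + n + 1)
    have h3 := Sc_nonneg (m + n) h m
    have h4 := Sc_le_one (m + n) h m
    have h5 := Real.cos_sq_le_one (Real.pi * h / 2 ^ (m + n + 1))
    rw [h1]
    set P := Sc (m + n) h m
    set x := Real.cos (Real.pi * h / 2 ^ (m + n + 1)) ^ 2
    have h6 : 1 - P * x ≤ (1 - P) + (1 - x) := by nlinarith
    refine h6.trans ?_
    refine (add_le_add ih h2).trans (le_of_eq ?_)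
    rw [← add_assoc, pow_succ (4:ℝ) (m + n)]
    field_simp
    ring

lemma dd_le {M m : ℕ} (hm : m ≤ M) (h : ℤ) {a : ℕ} (ha : a ≤ m + 1) :
    dd M m h a ≤ 14 * (1 + (h : ℝ) ^ 2) / 4 ^ a := by
  have hh : (0:ℝ) ≤ (h : ℝ) ^ 2 := sq_nonneg _
  have hpi := pi_sq_lt
  cases a with
  | zero =>
    refine (dd_le_one _ _ _ _).trans ?_
    rw [pow_zero, div_one]
    linarith
  | succ a =>
    simp only [dd]
    by_cases h1 : a + 1 ≤ m
    · have e1 : Sp M m h (a + 1) = Sc M h (a + 1) := by unfold Sp; rw [if_pos h1]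
      have e2 : Sp M m h a = Sc M h a := by unfold Sp; rw [if_pos (by omega)]
      rw [e1, e2, Sc_succ h (by omega : a < M)]
      have h2 := one_sub_cos_sq h (a + 1)
      have h3 := Sc_nonneg M h (a + 1)
      have h4 := Sc_le_one M h (a + 1)
      have h5 := Real.cos_sq_le_one (Real.pi * h / 2 ^ (a + 1))
      have h6 : Sc M h (a + 1) - Real.cos (Real.pi * h / 2 ^ (a + 1)) ^ 2 * Sc M h (a + 1) ≤
          1 - Real.cos (Real.pi * h / 2 ^ (a + 1)) ^ 2 := by nlinarith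
      refine h6.trans (h2.trans ?_)
      refine div_le_div_of_nonneg_right ?_ (by positivity)
      nlinarith
    · have ham : a = m := by omega
      subst ham
      have e1 : Sp M a h (a + 1) = 1 := by unfold Sp; rw [if_neg h1]
      have e2 : Sp M a h a = Sc M h a := by unfold Sp; rw [if_pos le_rfl]
      rw [e1, e2]
      obtain ⟨n, rfl⟩ := Nat.exists_eq_add_of_le hm
      refine (one_sub_Sc h a n).trans ?_
      have h2 : Real.pi ^ 2 * h ^ 2 / 3 * (1 / 4 ^ a - 1 / 4 ^ (a + n)) ≤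
          Real.pi ^ 2 * h ^ 2 / 3 * (1 / 4 ^ a) := by
        refine mul_le_mul_of_nonneg_left ?_ (by positivity)
        have : (0:ℝ) ≤ 1 / 4 ^ (a + n) := by positivity
        linarith
      refine h2.trans ?_
      rw [pow_succ (4:ℝ) a]
      have h4 : (0:ℝ) < 4 ^ a := by positivity
      rw [mul_one_div, div_le_div_iff₀ h4 (by positivity)]
      have h5 : Real.pi ^ 2 * (h:ℝ) ^ 2 ≤ 10 * (h : ℝ) ^ 2 := by nlinarith
      have h6 := mul_le_mul_of_nonneg_right h5 h4.le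
      have h7 := mul_nonneg hh h4.le
      nlinarith

lemma Sc_zero {M : ℕ} {h : ℤ} (h0 : h ≠ 0) (hM : |h| < 2 ^ M) : Sc M h 0 = 0 := by
  have hn : h.natAbs ≠ 0 := by omega
  obtain ⟨v, u, hu, he⟩ := Nat.exists_eq_two_pow_mul_odd hn
  have hv : v < M := by
    by_contra hv
    push Not at hv
    have h1 : h.natAbs < 2 ^ M := by
      have : ((h.natAbs : ℕ) : ℤ) < ((2 ^ M : ℕ) : ℤ) := by
        rw [Int.natCast_natAbs]; push_cast; exact hM
      exact_mod_cast this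
    have h2 : 2 ^ M ≤ 2 ^ v := Nat.pow_le_pow_right (by norm_num) hv
    have h3 : 1 ≤ u := hu.pos
    have h4 : 2 ^ v * 1 ≤ 2 ^ v * u := Nat.mul_le_mul_left _ h3
    omega
  unfold Sc
  refine Finset.prod_eq_zero (i := v) (by simp [hv]) ?_
  rw [sq_eq_zero_iff, Real.cos_eq_zero_iff]
  obtain ⟨w, hw⟩ := hu
  have h5 : (h : ℝ) = 2 ^ v * (2 * w + 1) ∨ (h : ℝ) = -(2 ^ v * (2 * w + 1)) := by
    rcases Int.natAbs_eq h with h6 | h6
    · left
      rw [h6, he, hw]; push_cast; ring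
    · right
      rw [h6, he, hw]; push_cast; ring
  have hp : (2:ℝ) ^ v ≠ 0 := by positivity
  rcases h5 with h5 | h5
  · refine ⟨w, ?_⟩
    rw [h5, pow_succ]
    push_cast
    field_simp
  · refine ⟨-(w:ℤ) - 1, ?_⟩
    rw [h5, pow_succ]
    push_cast
    field_simp
    ring


/-- extension of a bit string -/
def ext (m : ℕ) {M : ℕ} (i : Fin m → Bool) (q : Fin M) : Bool :=
  if h : (q : ℕ) < m then i ⟨q, h⟩ else false

/-- the two point function -/
lemma two_point (h1 : S_PAIR) {M m : ℕ} (hm : m ≤ M) (h : ℤ) (i j : Fin m → Bool) :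
    ∑ s : Coin M, Complex.exp (2 * Real.pi * Complex.I * h *
      (X s (ext m i) - X s (ext m j) : ℝ)) =
      ((Fintype.card (Coin M) : ℝ) * ∑ a ∈ Finset.range (m + 2), dd M m h a * Wf a i j : ℝ) := by
  by_cases hij : i = j
  · subst hij
    have hW : ∀ a : ℕ, Wf a i i = 1 := by
      intro a
      unfold Wf
      simp
    simp_rw [hW, mul_one]
    rw [dd_sum]
    have : Sp M m h (m + 1) = 1 := by unfold Sp; rw [if_neg (by omega)]
    rw [this]
    simp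
  · -- first difference
    have hex : ∃ n : ℕ, ∃ hn : n < m, i ⟨n, hn⟩ ≠ j ⟨n, hn⟩ := by
      by_contra hcon
      push Not at hcon
      exact hij (funext fun q => hcon q q.2)
    classical
    obtain ⟨a0, ⟨ha0, hne⟩, hmin⟩ : ∃ n : ℕ, (∃ hn : n < m, i ⟨n, hn⟩ ≠ j ⟨n, hn⟩) ∧
        ∀ n' < n, ∀ hn' : n' < m, i ⟨n', hn'⟩ = j ⟨n', hn'⟩ := by
      refine ⟨Nat.find hex, Nat.find_spec hex, fun n' hn' hm' => ?_⟩
      by_contra hcon
      exact Nat.find_min hex hn' ⟨hm', hcon⟩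
    have hA := h1 M h (ext m i) (ext m j) ⟨a0, by omega⟩ (by
      intro q hq
      have hq' : (q : ℕ) < a0 := hq
      unfold ext
      rw [dif_pos (by omega), dif_pos (by omega)]
      exact hmin q hq' (by omega)) (by
      unfold ext
      rw [dif_pos ha0, dif_pos ha0]
      exact hne)
    rw [hA]
    congr 2
    -- the sum
    have hW1 : ∀ a ≤ a0, Wf a i j = 1 := by
      intro a ha
      unfold Wf
      have c1 : ∀ p : Fin m, (p : ℕ) + 1 < a → i p = j p :=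
        fun p hp => hmin p (by omega) p.2
      have c2 : ∀ p : Fin m, (p : ℕ) + 1 = a → i p = j p :=
        fun p hp => hmin p (by omega) p.2
      rw [if_pos c1, if_pos c2]
    have hW2 : Wf (a0 + 1) i j = -1 := by
      unfold Wf
      have c1 : ∀ p : Fin m, (p : ℕ) + 1 < a0 + 1 → i p = j p :=
        fun p hp => hmin p (by omega) p.2
      rw [if_pos c1, if_neg]
      intro hcon
      exact hne (hcon ⟨a0, ha0⟩ rfl)
    have hW3 : ∀ a, a0 + 1 < a → Wf a i j = 0 := by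
      intro a ha
      unfold Wf
      rw [if_neg]
      intro hcon
      exact hne (hcon ⟨a0, ha0⟩ ha)
    have hsub : ∑ a ∈ Finset.range (m + 2), dd M m h a * Wf a i j =
        ∑ a ∈ Finset.range (a0 + 2), dd M m h a * Wf a i j := by
      symm
      refine Finset.sum_subset (fun x hx => ?_) (fun x _ hx => ?_)
      · rw [Finset.mem_range] at hx ⊢; omega
      · rw [Finset.mem_range] at hx
        rw [hW3 x (by omega), mul_zero]
    rw [hsub, Finset.sum_range_succ, hW2]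
    have hs1 : ∑ a ∈ Finset.range (a0 + 1), dd M m h a * Wf a i j = Sp M m h a0 := by
      rw [← dd_sum]
      refine Finset.sum_congr rfl fun a ha => ?_
      rw [Finset.mem_range] at ha
      rw [hW1 a (by omega), mul_one]
    rw [hs1]
    simp only [dd]
    have e1 : Sp M m h (a0 + 1) = Sc M h (a0 + 1) := by unfold Sp; rw [if_pos (by omega)]
    have e2 : Sp M m h a0 = Sc M h a0 := by unfold Sp; rw [if_pos (by omega)]
    rw [e1, e2]
    ring

/-- the exponential -/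
def ex {M : ℕ} (m : ℕ) (h : ℤ) (s : Coin M) (i : Fin m → Bool) : ℂ :=
  Complex.exp (2 * Real.pi * Complex.I * h * (X s (ext m i) : ℝ))

lemma ex_mul_conj {M m : ℕ} (h : ℤ) (s : Coin M) (i j : Fin m → Bool) :
    ex m h s i * (starRingEnd ℂ) (ex m h s j) = Complex.exp (2 * Real.pi * Complex.I * h *
      (X s (ext m i) - X s (ext m j) : ℝ)) := by
  unfold ex
  rw [← Complex.exp_conj, ← Complex.exp_add]
  congr 1
  simp only [map_mul, Complex.conj_ofReal, Complex.conj_I, map_ofNat, map_intCast]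
  push_cast
  ring

lemma norm_ex {M m : ℕ} (h : ℤ) (s : Coin M) (i : Fin m → Bool) : ‖ex m h s i‖ = 1 := by
  unfold ex
  have : 2 * Real.pi * Complex.I * h * (X s (ext m i) : ℝ) =
      ((2 * Real.pi * h * X s (ext m i) : ℝ) : ℂ) * Complex.I := by push_cast; ring
  rw [this, Complex.norm_exp_ofReal_mul_I]

/-- the correlations -/
def Gam (m a b : ℕ) : ℝ :=
  ∑ i : Fin m → Bool, ∑ j : Fin m → Bool, Wf a i j * Wf b (i ∘ Fin.rev) (j ∘ Fin.rev)

/-- STEP 2 -/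
lemma step2 (h1 : S_PAIR) {M m : ℕ} (hm : m ≤ M) (g g' : ℤ) :
    ∑ o : Coin M × Coin M, ‖∑ i : Fin m → Bool, ex m g o.1 i * ex m g' o.2 (i ∘ Fin.rev)‖ ^ 2 =
      (Fintype.card (Coin M) : ℝ) ^ 2 * ∑ a ∈ Finset.range (m + 2), ∑ b ∈ Finset.range (m + 2),
        dd M m g a * dd M m g' b * Gam m a b := by
  have hC : ((∑ o : Coin M × Coin M,
      ‖∑ i : Fin m → Bool, ex m g o.1 i * ex m g' o.2 (i ∘ Fin.rev)‖ ^ 2 : ℝ) : ℂ) =
      ∑ i : Fin m → Bool, ∑ j : Fin m → Bool,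
        (∑ s : Coin M, ex m g s i * (starRingEnd ℂ) (ex m g s j)) *
        (∑ s : Coin M, ex m g' s (i ∘ Fin.rev) * (starRingEnd ℂ) (ex m g' s (j ∘ Fin.rev))) := by
    push_cast
    have e1 : ∀ o : Coin M × Coin M,
        ((‖∑ i : Fin m → Bool, ex m g o.1 i * ex m g' o.2 (i ∘ Fin.rev)‖ : ℝ) : ℂ) ^ 2 =
        ∑ i : Fin m → Bool, ∑ j : Fin m → Bool,
          (ex m g o.1 i * (starRingEnd ℂ) (ex m g o.1 j)) *
          (ex m g' o.2 (i ∘ Fin.rev) * (starRingEnd ℂ) (ex m g' o.2 (j ∘ Fin.rev))) := by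
      intro o
      rw [← Complex.mul_conj', map_sum, Finset.sum_mul_sum]
      refine Finset.sum_congr rfl fun i _ => Finset.sum_congr rfl fun j _ => ?_
      rw [map_mul]
      ring
    simp_rw [e1]
    rw [Finset.sum_comm]
    refine Finset.sum_congr rfl fun i _ => ?_
    rw [Finset.sum_comm]
    refine Finset.sum_congr rfl fun j _ => ?_
    rw [Finset.sum_mul_sum, Fintype.sum_prod_type]
  simp_rw [ex_mul_conj, two_point h1 hm] at hC
  have hR : (∑ o : Coin M × Coin M,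
      ‖∑ i : Fin m → Bool, ex m g o.1 i * ex m g' o.2 (i ∘ Fin.rev)‖ ^ 2 : ℝ) =
      ∑ i : Fin m → Bool, ∑ j : Fin m → Bool,
        ((Fintype.card (Coin M) : ℝ) * ∑ a ∈ Finset.range (m + 2), dd M m g a * Wf a i j) *
        ((Fintype.card (Coin M) : ℝ) * ∑ b ∈ Finset.range (m + 2), dd M m g' b *
          Wf b (i ∘ Fin.rev) (j ∘ Fin.rev)) := by
    exact_mod_cast hC
  rw [hR]
  set c : ℝ := (Fintype.card (Coin M) : ℝ)
  have e2 : ∀ i j : Fin m → Bool,
      (c * ∑ a ∈ Finset.range (m + 2), dd M m g a * Wf a i j) *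
        (c * ∑ b ∈ Finset.range (m + 2), dd M m g' b *
          Wf b (i ∘ Fin.rev) (j ∘ Fin.rev)) =
      c ^ 2 * ∑ a ∈ Finset.range (m + 2), ∑ b ∈ Finset.range (m + 2),
        dd M m g a * dd M m g' b * (Wf a i j * Wf b (i ∘ Fin.rev) (j ∘ Fin.rev)) := by
    intro i j
    rw [mul_mul_mul_comm, ← sq, Finset.sum_mul_sum]
    congr 1
    refine Finset.sum_congr rfl fun a _ => Finset.sum_congr rfl fun b _ => ?_
    ring
  simp_rw [e2]
  simp_rw [← Finset.mul_sum]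
  congr 1
  have e3 : ∀ a b : ℕ, dd M m g a * dd M m g' b * Gam m a b =
      ∑ i : Fin m → Bool, ∑ j : Fin m → Bool,
        dd M m g a * dd M m g' b * (Wf a i j * Wf b (i ∘ Fin.rev) (j ∘ Fin.rev)) := by
    intro a b
    unfold Gam
    simp_rw [Finset.mul_sum]
  simp_rw [e3]
  calc ∑ i : Fin m → Bool, ∑ j : Fin m → Bool, ∑ a ∈ Finset.range (m + 2),
        ∑ b ∈ Finset.range (m + 2),
        dd M m g a * dd M m g' b * (Wf a i j * Wf b (i ∘ Fin.rev) (j ∘ Fin.rev))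
      = ∑ i : Fin m → Bool, ∑ a ∈ Finset.range (m + 2), ∑ j : Fin m → Bool,
        ∑ b ∈ Finset.range (m + 2),
        dd M m g a * dd M m g' b * (Wf a i j * Wf b (i ∘ Fin.rev) (j ∘ Fin.rev)) :=
        Finset.sum_congr rfl fun i _ => Finset.sum_comm
    _ = ∑ a ∈ Finset.range (m + 2), ∑ i : Fin m → Bool, ∑ j : Fin m → Bool,
        ∑ b ∈ Finset.range (m + 2),
        dd M m g a * dd M m g' b * (Wf a i j * Wf b (i ∘ Fin.rev) (j ∘ Fin.rev)) :=
        Finset.sum_comm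
    _ = ∑ a ∈ Finset.range (m + 2), ∑ i : Fin m → Bool, ∑ b ∈ Finset.range (m + 2),
        ∑ j : Fin m → Bool,
        dd M m g a * dd M m g' b * (Wf a i j * Wf b (i ∘ Fin.rev) (j ∘ Fin.rev)) :=
        Finset.sum_congr rfl fun a _ => Finset.sum_congr rfl fun i _ => Finset.sum_comm
    _ = ∑ a ∈ Finset.range (m + 2), ∑ b ∈ Finset.range (m + 2), ∑ i : Fin m → Bool,
        ∑ j : Fin m → Bool,
        dd M m g a * dd M m g' b * (Wf a i j * Wf b (i ∘ Fin.rev) (j ∘ Fin.rev)) :=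
        Finset.sum_congr rfl fun a _ => Finset.sum_comm

/-- STEP 3: the main case -/
lemma step3 (h1 : S_PAIR) (h2 : S_COUNT) {M m : ℕ} (hm : m ≤ M) (g g' : ℤ)
    (h0 : g ≠ 0 ∨ g' ≠ 0) (hg : |g| < 2 ^ M) (hg' : |g'| < 2 ^ M) :
    ∑ o : Coin M × Coin M, ‖∑ i : Fin m → Bool, ex m g o.1 i * ex m g' o.2 (i ∘ Fin.rev)‖ ^ 2 ≤
      (Fintype.card (Coin M) : ℝ) ^ 2 * (2 * 2 ^ m * ∑ a ∈ Finset.range (m + 2),
        ∑ b ∈ Finset.range (m + 2), (if m < a + b then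
          min 1 (14 * (1 + (g : ℝ) ^ 2) / 4 ^ a) * min 1 (14 * (1 + (g' : ℝ) ^ 2) / 4 ^ b)
          else 0)) := by
  rw [step2 h1 hm]
  refine mul_le_mul_of_nonneg_left ?_ (by positivity)
  rw [Finset.mul_sum]
  refine Finset.sum_le_sum fun a ha => ?_
  rw [Finset.mul_sum]
  refine Finset.sum_le_sum fun b hb => ?_
  rw [Finset.mem_range] at ha hb
  obtain ⟨c1, c2⟩ := h2 m a b (by omega) (by omega)
  split_ifs with hab
  · have c3 : Gam m a b ≤ 2 * 2 ^ m := (le_abs_self _).trans (c2 hab)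
    have d1 : dd M m g a ≤ min 1 (14 * (1 + (g : ℝ) ^ 2) / 4 ^ a) :=
      le_min (dd_le_one _ _ _ _) (dd_le hm g (by omega))
    have d2 : dd M m g' b ≤ min 1 (14 * (1 + (g' : ℝ) ^ 2) / 4 ^ b) :=
      le_min (dd_le_one _ _ _ _) (dd_le hm g' (by omega))
    have n1 := dd_nonneg M m g a
    have n2 := dd_nonneg M m g' b
    have m1 := mul_le_mul d1 d2 n2 (n1.trans d1)
    calc dd M m g a * dd M m g' b * Gam m a b
        ≤ dd M m g a * dd M m g' b * (2 * 2 ^ m) :=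
          mul_le_mul_of_nonneg_left c3 (mul_nonneg n1 n2)
      _ ≤ _ := by
          rw [mul_comm]
          exact mul_le_mul_of_nonneg_left m1 (by positivity)
  · rw [mul_zero]
    rcases Nat.eq_zero_or_pos (a + b) with h3 | h3
    · have ha0 : a = 0 := by omega
      have hb0 : b = 0 := by omega
      subst ha0 hb0
      have h4 : dd M m g 0 * dd M m g' 0 = 0 := by
        simp only [dd, Sp, if_pos (Nat.zero_le m)]
        rcases h0 with h0 | h0
        · rw [Sc_zero h0 hg, zero_mul]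
        · rw [Sc_zero h0 hg', mul_zero]
      rw [h4, zero_mul]
    · have h5 : Gam m a b = 0 := c1 (by omega) h3
      rw [h5, mul_zero]

/-- the trivial bound -/
lemma triv {M m : ℕ} (g g' : ℤ) :
    ∑ o : Coin M × Coin M, ‖∑ i : Fin m → Bool, ex m g o.1 i * ex m g' o.2 (i ∘ Fin.rev)‖ ^ 2 ≤
      (Fintype.card (Coin M) : ℝ) ^ 2 * (2 ^ m) ^ 2 := by
  have h1 : ∀ o : Coin M × Coin M,
      ‖∑ i : Fin m → Bool, ex m g o.1 i * ex m g' o.2 (i ∘ Fin.rev)‖ ^ 2 ≤ (2 ^ m) ^ 2 := by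
    intro o
    refine pow_le_pow_left₀ (norm_nonneg _) ?_ 2
    refine (norm_sum_le _ _).trans ?_
    have : ∀ i : Fin m → Bool, ‖ex m g o.1 i * ex m g' o.2 (i ∘ Fin.rev)‖ = 1 := by
      intro i
      rw [norm_mul, norm_ex, norm_ex, one_mul]
    simp_rw [this]
    simp
  refine (Finset.sum_le_sum fun o _ => h1 o).trans (le_of_eq ?_)
  rw [Finset.sum_const, Finset.card_univ, Fintype.card_prod, nsmul_eq_mul]
  push_cast
  ring

lemma rpow_aux (k : ℝ) (m : ℕ) (hk : 1 / 2 < k) (w : ℝ) (hw : ((4:ℝ) ^ (3 * m)) ^ k ≤ w) :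
    1 ≤ ((2 : ℝ) ^ m) ^ (-(1 + 2 * k)) * w := by
  have h2 : (0:ℝ) < 2 := by norm_num
  have e1 : ((2 : ℝ) ^ m) ^ (-(1 + 2 * k)) = (2:ℝ) ^ ((m : ℝ) * (-(1 + 2 * k))) := by
    rw [← Real.rpow_natCast, ← Real.rpow_mul h2.le]
  have e2 : ((4:ℝ) ^ (3 * m)) ^ k = (2:ℝ) ^ (6 * (m:ℝ) * k) := by
    rw [show (4:ℝ) = 2 ^ 2 by norm_num, ← pow_mul, ← Real.rpow_natCast, ← Real.rpow_mul h2.le]
    congr 1
    push_cast
    ring
  rw [e1]
  rw [e2] at hw
  refine le_trans ?_ (mul_le_mul_of_nonneg_left hw (Real.rpow_nonneg h2.le _))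
  rw [← Real.rpow_add h2]
  apply Real.one_le_rpow (by norm_num)
  have hm : (0:ℝ) ≤ m := Nat.cast_nonneg m
  nlinarith

lemma rpow_aux2 (k : ℝ) (m : ℕ) (w1 w2 : ℝ) (h1 : 0 ≤ w1) (h2 : 0 ≤ w2) :
    2 * 2 ^ m * (14 * w1 * (14 * w2) / 4 ^ m) ^ k =
      ((2:ℝ) ^ m) ^ 2 * (2 * (196:ℝ) ^ k) * ((2 : ℝ) ^ m) ^ (-(1 + 2 * k)) * (w1 ^ k * w2 ^ k) := by
  have e0 : 14 * w1 * (14 * w2) / 4 ^ m = 196 * (w1 * w2) * (((2:ℝ) ^ m) ^ (-2:ℝ)) := by
    rw [Real.rpow_neg (by positivity), Real.rpow_two, ← pow_mul, mul_comm m 2, pow_mul]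
    norm_num
    ring
  rw [e0, Real.mul_rpow (by positivity) (by positivity), Real.mul_rpow (by norm_num) (by positivity),
    Real.mul_rpow h1 h2, ← Real.rpow_mul (by positivity)]
  have e1 : ((2:ℝ) ^ m) ^ (-2 * k) = (2:ℝ) ^ m * ((2 : ℝ) ^ m) ^ (-(1 + 2 * k)) := by
    have h2m : (0:ℝ) < 2 ^ m := by positivity
    calc ((2:ℝ) ^ m) ^ (-2 * k) = ((2:ℝ) ^ m) ^ (1 + -(1 + 2 * k)) := by
          congr 1; ring
      _ = _ := by rw [Real.rpow_add h2m, Real.rpow_one]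
  rw [e1]
  ring

theorem ub (h1 : S_PAIR) (h2 : S_COUNT) (h3 : S_GEO) : S_UB := by
  intro k hk hk1
  obtain ⟨C, hC, hgeo⟩ := h3 k (by linarith) hk1
  refine ⟨max 1 (C * (2 * (196:ℝ) ^ k)), lt_max_of_lt_left one_pos, fun m => ?_⟩
  have hcard : Fintype.card (Fin m → Bool) = 2 ^ m := by simp
  let e : (Fin m → Bool) ≃ Fin (2 ^ m) := Fintype.equivFinOfCardEq hcard
  set M := 3 * m with hM
  have hm : m ≤ M := by omega
  refine ⟨Coin M × Coin M, inferInstance, inferInstance, fun o i => ![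
    ((X o.1 (ext m (e.symm i)) : ℝ) : UnitAddCircle),
    ((X o.2 (ext m ((e.symm i) ∘ Fin.rev)) : ℝ) : UnitAddCircle)], fun h hh => ?_⟩
  have hL : ∀ o : Coin M × Coin M, ∑ i : Fin (2 ^ m), ∏ j, (fourier (h j)
      ((![((X o.1 (ext m (e.symm i)) : ℝ) : UnitAddCircle),
        ((X o.2 (ext m ((e.symm i) ∘ Fin.rev)) : ℝ) : UnitAddCircle)] : Tor 2) j) : ℂ) =
      ∑ i : Fin m → Bool, ex m (h 0) o.1 i * ex m (h 1) o.2 (i ∘ Fin.rev) := by
    intro o
    rw [← e.symm.sum_comp]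
    refine Finset.sum_congr rfl fun i _ => ?_
    rw [Fin.prod_univ_two]
    simp only [Matrix.cons_val_zero, Matrix.cons_val_one]
    unfold ex
    congr 1
    · refine (fourier_coe_apply (T := (1:ℝ))).trans ?_
      simp
    · refine (fourier_coe_apply (T := (1:ℝ))).trans ?_
      simp
  simp_rw [hL]
  have hcc : (Fintype.card (Coin M × Coin M) : ℝ) = (Fintype.card (Coin M) : ℝ) ^ 2 := by
    rw [Fintype.card_prod]
    push_cast
    ring
  rw [hcc]
  have hwt : wt k h = (1 + (h 0 : ℝ) ^ 2) ^ k * (1 + (h 1 : ℝ) ^ 2) ^ k := by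
    unfold wt
    rw [Fin.prod_univ_two]
  have hk0 : 0 < k := by linarith
  by_cases hbig : |h 0| < 2 ^ M ∧ |h 1| < 2 ^ M
  · have h0 : h 0 ≠ 0 ∨ h 1 ≠ 0 := by
      by_contra hcon
      push Not at hcon
      apply hh
      funext q
      fin_cases q
      · exact hcon.1
      · exact hcon.2
    refine (step3 h1 h2 hm (h 0) (h 1) h0 hbig.1 hbig.2).trans ?_
    have hre : ∀ c x y z : ℝ, c * x * y * z = c * (x * y * z) := fun c x y z => by ring
    rw [hre]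
    refine mul_le_mul_of_nonneg_left ?_ (by positivity)
    have a1 : (1:ℝ) ≤ 14 * (1 + (h 0 : ℝ) ^ 2) := by nlinarith [sq_nonneg (h 0 : ℝ)]
    have a2 : (1:ℝ) ≤ 14 * (1 + (h 1 : ℝ) ^ 2) := by nlinarith [sq_nonneg (h 1 : ℝ)]
    have hg := hgeo m _ _ a1 a2
    refine (mul_le_mul_of_nonneg_left hg (by positivity)).trans ?_
    have e1 := rpow_aux2 k m (1 + (h 0 : ℝ) ^ 2) (1 + (h 1 : ℝ) ^ 2) (by positivity) (by positivity)
    have e2 : 2 * 2 ^ m * (C * (14 * (1 + (h 0 : ℝ) ^ 2) * (14 * (1 + (h 1 : ℝ) ^ 2)) / 4 ^ m) ^ k) =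
        ((2:ℝ) ^ m) ^ 2 * (C * (2 * (196:ℝ) ^ k) * ((2 : ℝ) ^ m) ^ (-(1 + 2 * k))) * wt k h := by
      rw [hwt]
      calc 2 * 2 ^ m * (C * (14 * (1 + (h 0 : ℝ) ^ 2) * (14 * (1 + (h 1 : ℝ) ^ 2)) / 4 ^ m) ^ k)
          = C * (2 * 2 ^ m * (14 * (1 + (h 0 : ℝ) ^ 2) * (14 * (1 + (h 1 : ℝ) ^ 2)) / 4 ^ m) ^ k) := by
            ring
        _ = _ := by rw [e1]; ring
    rw [e2]
    have hwt0 : 0 ≤ wt k h := by rw [hwt]; positivity
    push_cast
    have hmx : C * (2 * (196:ℝ) ^ k) ≤ max 1 (C * (2 * (196:ℝ) ^ k)) := le_max_right _ _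
    have hp : (0:ℝ) ≤ ((2 : ℝ) ^ m) ^ (-(1 + 2 * k)) := by positivity
    refine mul_le_mul_of_nonneg_right ?_ hwt0
    exact mul_le_mul_of_nonneg_left (mul_le_mul_of_nonneg_right hmx hp) (by positivity)
  · refine (triv (h 0) (h 1)).trans ?_
    have hwt1 : ((4:ℝ) ^ (3 * m)) ^ k ≤ wt k h := by
      rw [hwt]
      have b0 : (1:ℝ) ≤ (1 + (h 0 : ℝ) ^ 2) ^ k :=
        Real.one_le_rpow (by nlinarith [sq_nonneg (h 0 : ℝ)]) hk0.le
      have b1 : (1:ℝ) ≤ (1 + (h 1 : ℝ) ^ 2) ^ k :=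
        Real.one_le_rpow (by nlinarith [sq_nonneg (h 1 : ℝ)]) hk0.le
      have hbd : ∀ x : ℤ, ¬ |x| < 2 ^ M → ((4:ℝ) ^ (3 * m)) ^ k ≤ (1 + (x : ℝ) ^ 2) ^ k := by
        intro x hx
        refine Real.rpow_le_rpow (by positivity) ?_ hk0.le
        push Not at hx
        have : ((2 ^ M : ℤ) : ℝ) ≤ ((|x| : ℤ) : ℝ) := by exact_mod_cast hx
        push_cast at this
        have h5 : ((2:ℝ) ^ M) ^ 2 ≤ |(x:ℝ)| ^ 2 := pow_le_pow_left₀ (by positivity) this 2
        rw [sq_abs, ← pow_mul, mul_comm M 2, pow_mul] at h5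
        norm_num at h5
        rw [← hM]
        linarith
      rw [not_and_or] at hbig
      rcases hbig with h4 | h4
      · have := hbd _ h4
        nlinarith
      · have := hbd _ h4
        nlinarith
    have h5 := rpow_aux k m hk _ hwt1
    rw [mul_assoc, mul_assoc]
    refine mul_le_mul_of_nonneg_left ?_ (by positivity)
    push_cast
    have h6 : (1:ℝ) ≤ max 1 (C * (2 * (196:ℝ) ^ k)) := le_max_left _ _
    calc ((2:ℝ) ^ m) ^ 2 = (2 ^ m) ^ 2 * (1 * 1) := by ring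
      _ ≤ (2 ^ m) ^ 2 * (max 1 (C * (2 * (196:ℝ) ^ k)) *
          (((2 : ℝ) ^ m) ^ (-(1 + 2 * k)) * wt k h)) := by
          refine mul_le_mul_of_nonneg_left ?_ (by positivity)
          exact mul_le_mul h6 h5 zero_le_one (by positivity)
      _ = _ := by ring

end

end Pool.Agent.W12.RN.UB
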